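import Mathlib
import Pool.Graph.R_pool_sql_team_seeded_2aa45f1a.Q70.MM.MotSum
import Pool.Agent.H65.CM.Flip
import Pool.Agent.H65.CM.Subf

/-!
# The motivic Mumford-Tate conjecture for the sums of arbitrary motives with abelian varieties whose
reduction at one place has Galois Frobenius fields with reduced odd group algebra

Let `k` be a finitely generated subfield of the complex numbers, `A` an abelian variety over `k`, of any
dimension and with arbitrary endomorphisms, and let `N` be **any motive** over `k` (for instance the
cohomology of any smooth projective variety, in all degrees). The theorem says, under conditions on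
**one** Frobenius element, that **the Mumford-Tate conjecture holds for the motive `h_1(A) ⊕ N` if and
only if it holds for `N`** (and it holds for `A`: `N = 0`).

The formal statement (the definitions are those of the library results on this problem). A
motive is given by the following data: the Betti realization `W` (a rational vector space), its Hodge
structure, given by a map `per` from `W` to a real vector space `R` and by the operation `h z` of the
complex numbers `z` of absolute value one on `R` (multiplication by `z ^ (p - q)` on the part of type
`(p, q)`), the `ℓ`-adic realization `V` with the action `ρ` of the Galois group, and the comparison map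
`comp` from `W` to `V`. The conjecture for the motive (`MumfordTateFor`) says that all `ℓ`-adic Tate
classes in the spaces of multilinear forms in `b` variables on `V`, for all `b` and all Tate twists `c`
in `ℤ`, are linear combinations of Hodge classes: of rational forms whose real extensions are
invariant under `h z`, `|z| = 1`. Because of the polarizations these spaces contain all tensor
constructions on the motive; the translation to the groups of the question (which uses that the
groups are reductive) is not formalized. For the abelian variety `A` the data are `W = H_1(A, ℚ)`, the
tangent space `T`, the Tate module, the Weil pairing; the theorems of Faltings on endomorphisms and on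
semisimplicity are part of the data (`IsRealization`). The data of the sum are the direct sums
(`sumHodge`, `sumRep`).

The conditions. Let `γ` be a Frobenius element at a place of good reduction, with a residue field of
`q = p ^ a` elements. The characteristic polynomial of `γ` on the Tate module of `A` is the product of
the minimal polynomials of Weil numbers `π i` generating CM fields `F i`, such that

* `OddReduced`: `F i` is Galois over `ℚ`, and the odd part of the rational group algebra of its Galois
  group contains no `x ≠ 0` with `x ^ 2 = 0`. This is so if the Galois group has an abelian subgroup `B`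
  such that all elements outside `B` have square `c`, the complex conjugation (`DicyclicType`, third
  part): the abelian CM fields, and the CM fields with a quaternion, dicyclic or generalized dicyclic
  Galois group. The odd functions on the embeddings are in general not irreducible, the degree of
  `F i` is arbitrary and `F i` may have many CM subfields;
* `NoShort`: there are no short relations: for a nonempty set `S` of complex embeddings of `F i` which
  contains at most one of each pair of conjugate embeddings, no positive power of
  `∏_{φ ∈ S} φ(π i) ^ 2` is equal to the same power of `q ^ |S|`. There are finitely many sets `S`, and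
  there are no conditions on the slopes;
* `RealIntersection`: different fields `F i` have no CM field in common.

The condition on `N` is: `γ` is killed on the `ℓ`-adic realization of `N` by a nonzero rational
polynomial (by the Weil conjectures one can take a power of the characteristic polynomial) all of whose
complex roots are **products of algebraic numbers, any number of them**, each of which is unrelated to
all the fields `F i` (`UnrelatedTo`: an odd function on the embeddings of `F i` invariant under all
automorphisms of `ℂ` that fix a power of the number is zero). By the second part all elements of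
Galois number fields `E` which have no CM field in common with `F i` are unrelated to `F i`; for example
all elements of all totally real Galois number fields.

Relation to the library: the results there on the sums of arbitrary motives with abelian varieties
suppose that the odd functions on the embeddings of the `F i` are irreducible or that the degree of `F i`
is twice a prime number, or that embeddings are flipped; here the fields may be of any degree. For
abelian `F i` the criterion is the analogue of a theorem of Lenstra on CM types (see White,
Sporadic cycles on CM abelian varieties). For an abelian motive `N` Vasiu and Commelin proved that the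
Mumford-Tate conjecture for the sum follows from the conjectures for `A` and `N`.
-/

set_option autoImplicit false

namespace Pool.Agent.Results.MP_de8692_ag.ReducedGaloisSums

open NumberField Module IntermediateField Pool.Agent.H204R3.GP Pool.Agent.TH170
  Pool.Agent.Y137.MV Pool.Agent.Y1.CT Pool.Agent.Q70.MM Pool.Agent.Q306.TP Pool.Agent.H65.CM

/-- For all abelian varieties `A` over a finitely generated subfield of the complex numbers with a
Frobenius element `γ` whose characteristic polynomial on the Tate module is the product of the
minimal polynomials of the Weil numbers `π i`, and all motives `N` for which `γ` is killed, on the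
`ℓ`-adic realization, by a rational polynomial `f` all of whose complex roots are products of numbers
unrelated to all the fields `F i`: the Mumford-Tate conjecture holds for the sum `H_1(A) ⊕ N` if and only
if it holds for `N`. -/
def SumHolds (p : ℕ) [Fact p.Prime] (a : ℕ) {I : Type} [Fintype I]
    (F : I → Type) [∀ i, Field (F i)] [∀ i, NumberField (F i)] [∀ i, IsCMField (F i)]
    (π : ∀ i, F i) : Prop :=
  ∀ (ℓ : ℕ) [Fact ℓ.Prime] (W T V Γ WN R M : Type) [AddCommGroup W] [Module ℚ W]
    [AddCommGroup T] [Module ℂ T] [AddCommGroup V] [Module ℚ_[ℓ] V] [FiniteDimensional ℚ_[ℓ] V]
    [Group Γ] [AddCommGroup WN] [Module ℚ WN] [AddCommGroup R] [Module ℝ R] [AddCommGroup M]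
    [Module ℚ_[ℓ] M] [FiniteDimensional ℚ_[ℓ] M] (per : W →+ T) (ω₀ : W →ₗ[ℚ] W →ₗ[ℚ] ℚ)
    (comp : W →+ V) (ρ : Representation ℚ_[ℓ] Γ V) (χ : Γ →* ℚ_[ℓ])
    (ω : V →ₗ[ℚ_[ℓ]] V →ₗ[ℚ_[ℓ]] ℚ_[ℓ]) (perN : WN →+ R) (h : ℂ → R →ₗ[ℝ] R) (compN : WN →+ M)
    (τ : Representation ℚ_[ℓ] Γ M) (γ : Γ) (f : Polynomial ℚ),
    FT.IsRealization per ω₀ comp ρ χ ω → χ γ = (p : ℚ_[ℓ]) ^ a →
    (ρ γ).charpoly = ∏ i, (minpoly ℚ (π i)).map (algebraMap ℚ ℚ_[ℓ]) → f ≠ 0 →
    Polynomial.aeval (τ γ) (f.map (algebraMap ℚ ℚ_[ℓ])) = 0 →
    (∀ α : ℂ, Polynomial.aeval α f = 0 → IsProductOfUnrelated F α) →
      (MumfordTateFor (per.prodMap perN) (sumHodge h) (comp.prodMap compN) (sumRep ρ τ) χ ↔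
        MumfordTateFor perN h compN τ χ)

/-- **The Mumford-Tate conjecture holds for `h_1(A) ⊕ N` if and only if it holds for `N`, for the
abelian varieties `A` whose reduction at one place has Galois Frobenius fields with reduced odd group
algebra and no short relations, and all motives `N` whose Frobenius eigenvalues are products of
unrelated numbers (criterion: second part).** -/
theorem result :
    (∀ (p : ℕ) [Fact p.Prime] (a : ℕ) (I : Type) [Fintype I] (F : I → Type)
      [∀ i, Field (F i)] [∀ i, NumberField (F i)] [∀ i, IsCMField (F i)] (π : ∀ i, F i),
      (∀ i, ℚ⟮π i⟯ = ⊤) → (∀ i, π i * IsCMField.complexConj (F i) (π i) = (p : F i) ^ a) →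
      (∀ i, OddReduced (F i)) → (∀ i k, i ≠ k → RealIntersection (F i) (F k)) →
      (∀ i, NoShort (p ^ a) (π i)) → SumHolds p a F π) ∧
    (∀ (K E : Type) [Field K] [NumberField K] [IsGalois ℚ K] [Field E] [NumberField E]
      [IsGalois ℚ E], RealIntersection K E → ∀ (ψ : E →+* ℂ) (y : E), UnrelatedTo K (ψ y)) ∧
    (∀ (K : Type) [Field K] [NumberField K], DicyclicType K → OddReduced K) := by
  refine ⟨?_, ?_, fun K _ _ h => OddReduced.of_dicyclic h⟩
  · intro p _ a I _ F _ _ _ π hg hw hred hreal hshort ℓ _ W T V Γ WN R M _ _ _ _ _ _ _ _ _ _ _ _ _
      _ _ per ω₀ comp ρ χ ω perN h compN τ γ f hR hχ hγ hf0 hfγ hf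
    have hw' : ∀ i, π i * IsCMField.complexConj (F i) (π i) = ((p ^ a : ℕ) : F i) := fun i => by
      rw [hw i]
      push_cast
      rfl
    exact mumfordTate_sum hg hw ((angle_family_iff
      (pow_ne_zero a (Fact.out : p.Prime).ne_zero) hred hw' hreal).2 hshort) hR γ hχ hγ hf0 hfγ hf
  · intro K E _ _ _ _ _ _ h ψ y
    obtain ⟨τ, h1, h2⟩ := exists_flip h
    exact unrelated_of_flip τ h1 h2 ψ y

end Pool.Agent.Results.MP_de8692_ag.ReducedGaloisSums
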